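import Pool.Agent.Lib.MP_0a5adf_nt.TP.Interfaces

/-!
Project TAO+, module CNTPAR: equidistribution of the parity words in dyadic blocks.
-/

set_option autoImplicit false

namespace Pool.Agent.Lib.MP_0a5adf_nt.H21

open Finset
open Pool.Agent.Lib.MP_0a5adf_nt.TP

/-- two starting points with the same word are congruent modulo `2 ^ i` -/
theorem par_inj (hd : DynStatement) (d : Bool) {i N N' : ℕ} (h : par d N i = par d N' i) :
    (2 : ℤ) ^ i ∣ (N : ℤ) - N' := by
  obtain ⟨-, -, h1⟩ := hd.1 d N i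
  obtain ⟨-, -, h2⟩ := hd.1 d N' i
  rw [← h] at h2
  have h3 : (2 : ℤ) ^ i ∣ 3 ^ (par d N i).card * ((N : ℤ) - N') :=
    ⟨((T d)^[i] N : ℤ) - ((T d)^[i] N' : ℤ), by rw [mul_sub, mul_sub]; linarith⟩
  refine IsCoprime.dvd_of_dvd_mul_left ?_ h3
  exact (show IsCoprime (2 : ℤ) 3 by norm_num).pow

theorem par_injOn (hd : DynStatement) (d : Bool) (i a : ℕ) :
    Set.InjOn (fun N => par d N i) (Ico a (a + 2 ^ i) : Finset ℕ) := by
  intro N hN N' hN' h
  have h1 := par_inj hd d h
  rw [coe_Ico, Set.mem_Ico] at hN hN'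
  have h2 : |(N : ℤ) - N'| < 2 ^ i := by
    rw [abs_lt]
    have e1 : (a : ℤ) ≤ N := by exact_mod_cast hN.1
    have e2 : (N : ℤ) < a + 2 ^ i := by exact_mod_cast hN.2
    have e3 : (a : ℤ) ≤ N' := by exact_mod_cast hN'.1
    have e4 : (N' : ℤ) < a + 2 ^ i := by exact_mod_cast hN'.2
    constructor <;> linarith
  have h3 := Int.eq_zero_of_abs_lt_dvd h1 h2
  omega

/-- one block of length `2 ^ i` -/
theorem block (hd : DynStatement) (d : Bool) (i a : ℕ) (F : Finset (Finset ℕ))
    (hF : F ⊆ (Icc 1 i).powerset) :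
    ((Ico a (a + 2 ^ i)).filter fun N => par d N i ∈ F).card = F.card := by
  have hinj := par_injOn hd d i a
  have himg : (Ico a (a + 2 ^ i)).image (fun N => par d N i) = (Icc 1 i).powerset := by
    refine eq_of_subset_of_card_le ?_ ?_
    · intro S hS
      obtain ⟨N, -, rfl⟩ := mem_image.1 hS
      exact mem_powerset.2 (hd.1 d N i).1
    · rw [card_image_of_injOn hinj, card_powerset]
      simp
  have h2 : ((Ico a (a + 2 ^ i)).filter fun N => par d N i ∈ F).image (fun N => par d N i) = F := by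
    ext S
    rw [mem_image]
    constructor
    · rintro ⟨N, hN, rfl⟩
      exact (mem_filter.1 hN).2
    · intro hS
      have h3 := hF hS
      rw [← himg, mem_image] at h3
      obtain ⟨N, hN, rfl⟩ := h3
      exact ⟨N, mem_filter.2 ⟨hN, hS⟩, rfl⟩
  conv_rhs => rw [← h2]
  refine (card_image_of_injOn (hinj.mono ?_)).symm
  intro N hN
  exact mem_coe.2 (mem_of_mem_filter N (mem_coe.1 hN))

theorem blocks (hd : DynStatement) (d : Bool) (i a k : ℕ) (F : Finset (Finset ℕ))
    (hF : F ⊆ (Icc 1 i).powerset) :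
    ((Ico a (a + k * 2 ^ i)).filter fun N => par d N i ∈ F).card = k * F.card := by
  induction k with
  | zero => simp
  | succ k ih =>
    have h1 := block hd d i (a + k * 2 ^ i) F hF
    rw [card_filter] at ih h1 ⊢
    rw [← sum_Ico_consecutive _ (Nat.le_add_right a (k * 2 ^ i))
      (Nat.add_le_add_left (Nat.mul_le_mul_right _ (Nat.le_succ k)) a), ih]
    have e : a + (k + 1) * 2 ^ i = a + k * 2 ^ i + 2 ^ i := by ring
    rw [e, h1]
    ring

/-- CNTPAR -/
theorem cntPar (hd : DynStatement) : CntParStatement := by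
  intro d i l F hil hF
  have h := blocks hd d i (2 ^ l) (2 ^ (l - i)) F hF
  have e : 2 ^ l + 2 ^ (l - i) * 2 ^ i = 2 ^ (l + 1) := by
    rw [← pow_add, Nat.sub_add_cancel hil]
    ring
  rwa [e] at h

end Pool.Agent.Lib.MP_0a5adf_nt.H21
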