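import Pool.Agent.Lib.MP_0a5adf_nt.TP.Interfaces

/-!
Project TAO+, module INJ: heads with small numerators are determined by their residues.
-/

set_option autoImplicit false

namespace Pool.Agent.Lib.MP_0a5adf_nt.H21

open Finset
open Pool.Agent.Lib.MP_0a5adf_nt.TP

theorem fam_sub {k a : ℕ} {A : Finset ℕ} (h : A ∈ Fam k a) : A ⊆ Icc 1 a ∧ A.card = k := by
  unfold Fam at h
  exact mem_powersetCard.1 (mem_filter.1 h).1

theorem num_eq_xr {a : ℕ} {A : Finset ℕ} (h : A ⊆ Icc 1 a) : (2 : ℝ) ^ a * xr A = (num a A : ℝ) := by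
  unfold xr num
  push_cast
  rw [mul_sum]
  refine sum_congr rfl fun x hx => ?_
  have hxa : x ≤ a := (mem_Icc.1 (h hx)).2
  have e : (2 : ℝ) ^ a = 2 ^ (a - x) * 2 ^ x := by rw [← pow_add, Nat.sub_add_cancel hxa]
  rw [e]
  field_simp

/-- the numerator determines the set -/
theorem num_inj (hd : DynStatement) {a : ℕ} {A A' : Finset ℕ} (hA : A ⊆ Icc 1 a)
    (hA' : A' ⊆ Icc 1 a) (hc : A.card = A'.card) (hn : num a A = num a A') : A = A' := by
  obtain ⟨u, w, huw⟩ : IsCoprime ((3 : ℤ) ^ A.card) (2 ^ a) :=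
    (show IsCoprime (3 : ℤ) 2 by norm_num).pow
  set v : ℤ := (num a A : ℤ) with hv
  have hpos : (0 : ℤ) < 2 ^ a := by positivity
  set N : ℕ := ((-(v * u)) % 2 ^ a).toNat with hN
  have hNz : (N : ℤ) = (-(v * u)) % 2 ^ a := by
    rw [hN, Int.toNat_of_nonneg (Int.emod_nonneg _ hpos.ne')]
  have hdiv : (2 : ℤ) ^ a ∣ 3 ^ A.card * (N : ℤ) + v := by
    have h1 : (2 : ℤ) ^ a ∣ (N : ℤ) - (-(v * u)) := by
      rw [hNz]
      refine ⟨-((-(v * u)) / 2 ^ a), ?_⟩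
      have := Int.emod_add_mul_ediv (-(v * u)) (2 ^ a)
      linarith
    have h2 : 3 ^ A.card * (N : ℤ) + v
        = 3 ^ A.card * ((N : ℤ) - (-(v * u))) + v * (1 - u * 3 ^ A.card) := by ring
    have h3 : 1 - u * (3 : ℤ) ^ A.card = w * 2 ^ a := by linarith
    rw [h2, h3]
    exact dvd_add (dvd_mul_of_dvd_right h1 _) (dvd_mul_of_dvd_right (dvd_mul_left _ _) _)
  obtain ⟨m, hm⟩ := hdiv
  have hm0 : 0 ≤ m := by
    have h1 : (0 : ℤ) ≤ 2 ^ a * m := by
      rw [← hm]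
      positivity
    exact nonneg_of_mul_nonneg_right h1 hpos
  have e1 : (2 : ℤ) ^ a * (m.toNat : ℤ) = 3 ^ A.card * (N : ℤ) + sg true * num a A := by
    rw [Int.toNat_of_nonneg hm0, ← hm, sg]
    simp [hv]
  have e2 : (2 : ℤ) ^ a * (m.toNat : ℤ) = 3 ^ A'.card * (N : ℤ) + sg true * num a A' := by
    rw [← hc, ← hn]
    exact e1
  have f1 := (hd.2.1 true N m.toNat a A hA e1).2
  have f2 := (hd.2.1 true N m.toNat a A' hA' e2).2
  rw [← f1, ← f2]

/-- INJ -/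
theorem inj (hd : DynStatement) : InjStatement := by
  intro n k a A A' hA hA' hlt hlt' hx
  obtain ⟨s1, c1⟩ := fam_sub hA
  obtain ⟨s2, c2⟩ := fam_sub hA'
  rw [num_eq_xr s1] at hlt
  rw [num_eq_xr s2] at hlt'
  have l1 : num a A < 3 ^ n := by exact_mod_cast hlt
  have l2 : num a A' < 3 ^ n := by exact_mod_cast hlt'
  have e1 := hd.2.2.2 a n A s1
  have e2 := hd.2.2.2 a n A' s2
  rw [hx, e2] at e1
  have e3 : num a A' ≡ num a A [MOD 3 ^ n] := (ZMod.natCast_eq_natCast_iff _ _ _).1 e1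
  have e4 : num a A' = num a A := Nat.ModEq.eq_of_lt_of_lt e3 l2 l1
  exact num_inj hd s1 s2 (c1.trans c2.symm) e4.symm

end Pool.Agent.Lib.MP_0a5adf_nt.H21
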